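import Pool.Agent.KTB.StmtsKA

set_option autoImplicit false

/-!
# Squad KTB, row TUN
-/

namespace Pool.Agent.KTB.H19

open Pool.Agent.KTB Finset
open scoped Classical

/-- **TUN** -/
theorem tun (_hIDN : IdnStmt) (hRAY : RayStmt) (hSTS : StsStmt) (hGNR : GnrStmt) : TunStmt := by
  intro ι T _ D S R M hLL hV hTm hnul hpar k hk r hr
  obtain ⟨p, f, hne, hRayR, hLLR⟩ := hV
  obtain ⟨-, -, -, -, hn, -⟩ := hRAY ι T D S R p f hRayR hne
  have hRS : R ⊆ S := hRayR.1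
  have hpos : D.R (S \ R) ≠ ⊥ := by
    intro h
    have h1 : D.nul (S \ R) = 0 := by
      unfold Dat.nul
      rw [h]
      exact finrank_bot ℚ (ι → ℚ)
    omega
  obtain ⟨ρ', hρ', hρ'0⟩ := (Submodule.ne_bot_iff _).mp hpos
  obtain ⟨a, ha⟩ : ∃ a, ρ' a ≠ 0 := by
    by_contra hcon
    push Not at hcon
    exact hρ'0 (funext hcon)
  have haN : a ∈ D.N (S \ R) := by
    unfold Dat.N
    rw [Finset.mem_filter]
    refine ⟨?_, ρ', hρ', ha⟩
    by_contra hcon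
    exact ha (hρ'.2 a hcon)
  obtain ⟨ρ, hρ, hρN⟩ := hGNR ι T D (S \ R)
  have hρ0 : ρ ≠ 0 := by
    intro h
    exact hρN a haN (by rw [h]; rfl)
  have hρS : ρ ∈ D.R S := by
    refine ⟨hρ.1, fun b hb => hρ.2 b ?_⟩
    intro h
    exact hb (Finset.mem_sdiff.mp h).1
  have hsupp : (univ.filter fun a => ρ a ≠ 0) = D.N (S \ R) := by
    ext b
    rw [Finset.mem_filter]
    constructor
    · rintro ⟨-, hb⟩
      have hbS : b ∈ S \ R := by
        by_contra hcon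
        exact hb (hρ.2 b hcon)
      unfold Dat.N
      rw [Finset.mem_filter]
      exact ⟨hbS, ρ, hρ, hb⟩
    · intro hb
      exact ⟨Finset.mem_univ b, hρN b hb⟩
  obtain ⟨h1, h2⟩ := hSTS ι T D S hLL ρ hρS hρ0
    (fun R' hR' r' hr' => (hpar R' hR' ρ hρ r' hr').ge)
  obtain ⟨h3, -⟩ := hSTS ι T D S hLL (-ρ) ((D.R S).neg_mem hρS) (neg_ne_zero.mpr hρ0)
    (fun R' hR' r' hr' => by
      rw [Pi.neg_apply, hpar R' hR' ρ hρ r' hr', neg_zero])
  have hsum : ∑ a, ρ a = 0 := by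
    have h4 : ∑ a, (-ρ) a = -∑ a, ρ a := by
      simp only [Pi.neg_apply, Finset.sum_neg_distrib]
    rw [h4] at h3
    linarith
  obtain ⟨M', hM', -⟩ := h2 hsum
  rw [hsupp] at hM'
  have hsub : ∀ b, b ∈ D.N (S \ R) → b ∈ S \ R := by
    intro b hb
    unfold Dat.N at hb
    exact (Finset.mem_filter.mp hb).1
  have hPM : D.PM (S \ R) (D.N (S \ R)) M' := by
    refine ⟨?_, hM'.2⟩
    intro j hj
    obtain ⟨y, hy, y', hy', hc⟩ := hM'.1 j hj
    refine ⟨y, hy, y', hy', hsub y hy, hsub y' hy', hc.2.2.1, hc.2.2.2.1, hc.2.2.2.2.1, ?_⟩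
    intro b hb h5 h6
    exact hc.2.2.2.2.2 b (Finset.mem_sdiff.mp hb).1 h5 h6
  have hMM : M' = M := hTm.2.2 M' hPM
  rw [← hMM] at hk
  obtain ⟨y, hy, y', hy', hc⟩ := hM'.1 k hk
  apply hc.2.2.2.2.2 r (hRS hr)
  · rintro rfl
    exact (Finset.mem_sdiff.mp (hsub _ hy)).2 hr
  · rintro rfl
    exact (Finset.mem_sdiff.mp (hsub _ hy')).2 hr

end Pool.Agent.KTB.H19
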